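import Pool.Agent.Q44.SA.Top

/-!
# Project SA: the final form of the criterion
-/

set_option autoImplicit false

namespace Pool.Agent.Q44.SA

open MvPolynomial Height

/-- the data of the criterion: `V(I)` is an irreducible projective surface, `φ` an automorphism with inverse `ψ`, the
closed subset of the common zeros of `T` is stable under `ψ`, and the heights are expanded outside this subset -/
structure Expanding {K : Type} [Field K] [NumberField K] {n : ℕ} (I : Ideal (MvPolynomial (Fin n) K)) (φ ψ : Mor I)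
    (T : Set (MvPolynomial (Fin n) K)) : Prop where
  prime : I.IsPrime
  homog : Homog I
  surface : Algebra.trdeg K (MvPolynomial (Fin n) K ⧸ I) = 3
  inv : LeftInv ψ φ
  stable : ∀ x y, Pt (RingHom.id K) I x → (∀ g ∈ T, eval x g = 0) → ψ.Rel (RingHom.id K) x y → ∀ g ∈ T, eval y g = 0
  expand : ∃ κ c : ℝ, 2 < κ ∧ ∀ x y y', Pt (RingHom.id K) I x → (¬ ∀ g ∈ T, eval x g = 0) →
    φ.Rel (RingHom.id K) x y → ψ.Rel (RingHom.id K) x y' → κ * logHeight x ≤ logHeight y + logHeight y' + c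

/-- The ideal of a point. -/
def pointIdeal {K : Type} [Field K] {n : ℕ} (e : Fin n → K) : Set (MvPolynomial (Fin n) K) :=
  {f | ∀ t : K, eval (t • e) f = 0}

/-- the criterion, final form -/
def S_finM : Prop := ∀ (K : Type) [Field K] [NumberField K] (n : ℕ) (I : Ideal (MvPolynomial (Fin n) K))
  (φ ψ : Mor I) (T : Set (MvPolynomial (Fin n) K)), Expanding I φ ψ T →
  ∃ (E : Finset (Fin n → K)) (N : ℕ), N ≠ 0 ∧ (∀ e ∈ E, Pt (RingHom.id K) I e) ∧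
    (∀ (r : ℕ) (L : Fin r → Type) [∀ i, NontriviallyNormedField (L i)] [∀ i, IsUltrametricDist (L i)]
      [∀ i, CompleteSpace (L i)] (σ : ∀ i, K →+* L i), (∀ i, DenseRange (σ i)) → (∀ i, ‖(N : L i)‖ = 1) →
      ∀ x : Fin n → K, Pt (RingHom.id K) I x → (¬ ∀ g ∈ T, eval x g = 0) →
      (∀ e ∈ E, ¬ ∃ s : K, s ≠ 0 ∧ x = s • e) →
      ∀ U : ∀ i, Set (Fin n → L i), (∀ i, U i ∈ nhds (σ i ∘ x)) →
      ∀ f : MvPolynomial (Fin n) K,
        (∀ y : Fin n → K, Pt (RingHom.id K) I y → (∀ i, ∃ c : L i, c ≠ 0 ∧ c • (σ i ∘ y) ∈ U i) →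
          ∀ t : K, eval (t • y) f = 0) → f ∈ I) ∧
    ∀ (L : Type) [NontriviallyNormedField L] [IsUltrametricDist L] [CompleteSpace L] (σ : K →+* L), DenseRange σ →
      ‖(N : L)‖ = 1 →
      (∀ x : Fin n → L, x ≠ 0 → closureIdeal σ I x = I ∨
        ∃ U ∈ nhds x, ∀ y : Fin n → K, Pt (RingHom.id K) I y → (∃ c : L, c ≠ 0 ∧ c • (σ ∘ y) ∈ U) →
          (∀ g ∈ T, eval y g = 0) ∨ ∃ e ∈ E, ∃ s : K, s ≠ 0 ∧ y = s • e) ∧
      ((∀ x, Pt (RingHom.id K) I x → ¬ ∀ g ∈ T, eval x g = 0) → ∀ x : Fin n → L, x ≠ 0 →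
        closureIdeal σ I x = Set.univ ∨ closureIdeal σ I x = I ∨
          ∃ e ∈ E, (∃ s : L, s ≠ 0 ∧ x = s • (σ ∘ e)) ∧ closureIdeal σ I x = pointIdeal e)

theorem finM (htop : S_topM) : S_finM := by
  classical
  intro K _ _ n I φ ψ T hX
  obtain ⟨κ, c, hκ, hH⟩ := hX.expand
  obtain ⟨E₀, N, hN, htop⟩ := htop K n I hX.prime hX.homog hX.surface φ ψ hX.inv T hX.stable κ c hκ hH
  obtain ⟨E, hE⟩ : ∃ E : Finset (Fin n → K), E = {e ∈ E₀ | Pt (RingHom.id K) I e} := ⟨_, rfl⟩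
  have hEpt : ∀ e ∈ E, Pt (RingHom.id K) I e := by
    intro e he
    rw [hE, Finset.mem_filter] at he
    exact he.2
  have hE' : ∀ x : Fin n → K, Pt (RingHom.id K) I x → (∀ e ∈ E, ¬ ∃ s : K, s ≠ 0 ∧ x = s • e) →
      ∀ e ∈ E₀, ¬ ∃ s : K, s ≠ 0 ∧ x = s • e := by
    rintro x hx h e he ⟨s, hs, rfl⟩
    refine h e ?_ ⟨s, hs, rfl⟩
    rw [hE, Finset.mem_filter]
    refine ⟨he, fun h0 => hx.1 (by rw [h0, smul_zero]), fun f hf => ?_⟩
    have h1 := pt_smul hX.homog hx hf s⁻¹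
    rw [smul_smul, inv_mul_cancel₀ hs, one_smul] at h1
    rw [eval₂_id]
    exact h1
  have main : ∀ (r : ℕ) (L : Fin r → Type) [∀ i, NontriviallyNormedField (L i)] [∀ i, IsUltrametricDist (L i)]
      [∀ i, CompleteSpace (L i)] (σ : ∀ i, K →+* L i), (∀ i, DenseRange (σ i)) → (∀ i, ‖(N : L i)‖ = 1) →
      ∀ x : Fin n → K, Pt (RingHom.id K) I x → (¬ ∀ g ∈ T, eval x g = 0) →
      (∀ e ∈ E, ¬ ∃ s : K, s ≠ 0 ∧ x = s • e) →
      ∀ U : ∀ i, Set (Fin n → L i), (∀ i, U i ∈ nhds (σ i ∘ x)) →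
      ∀ f : MvPolynomial (Fin n) K,
        (∀ y : Fin n → K, Pt (RingHom.id K) I y → (∀ i, ∃ c : L i, c ≠ 0 ∧ c • (σ i ∘ y) ∈ U i) →
          ∀ t : K, eval (t • y) f = 0) → f ∈ I := by
    intro r L _ _ _ σ hσ hNL x hx hxT hxE U hU f hf
    have : ∀ i, ProperSpace (L i) := fun i => Pool.Agent.W279.Tri.properSpace_of_denseRange (σ i) (hσ i)
    obtain ⟨ε, hε, hb⟩ := Pool.Agent.Q44.WK.exists_ball (fun i => Fin n → L i) (fun i => σ i ∘ x) U hU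
    refine htop (Fin r) L σ hNL x hx hxT (hE' x hx hxE) ε hε f ?_
    intro y hy h
    refine hf y hy fun i => ?_
    obtain ⟨c, hc, h1⟩ := h i
    refine ⟨c, hc, hb i _ ?_⟩
    rw [dist_eq_norm]
    exact h1
  refine ⟨E, N, hN, hEpt, main, ?_⟩
  intro L _ _ _ σ hσ hNL
  have tri : ∀ x : Fin n → L, x ≠ 0 → closureIdeal σ I x = I ∨
        ∃ U ∈ nhds x, ∀ y : Fin n → K, Pt (RingHom.id K) I y → (∃ c : L, c ≠ 0 ∧ c • (σ ∘ y) ∈ U) →
          (∀ g ∈ T, eval y g = 0) ∨ ∃ e ∈ E, ∃ s : K, s ≠ 0 ∧ y = s • e := by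
    intro x hx
    by_cases hA : ∀ U ∈ nhds x, ∃ y : Fin n → K, Pt (RingHom.id K) I y ∧ (∃ c : L, c ≠ 0 ∧ c • (σ ∘ y) ∈ U) ∧
        (¬ ∀ g ∈ T, eval y g = 0) ∧ ∀ e ∈ E, ¬ ∃ s : K, s ≠ 0 ∧ y = s • e
    · left
      ext f
      constructor
      · rintro ⟨U, hU, hf⟩
        obtain ⟨U', hU'U, hU'o, hxU'⟩ := mem_nhds_iff.mp hU
        obtain ⟨y, hy, ⟨c, hc, hcU⟩, hyT, hyE⟩ := hA U' (hU'o.mem_nhds hxU')
        refine main 1 (fun _ => L) (fun _ => σ) (fun _ => hσ) (fun _ => hNL) y hy hyT hyE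
          (fun _ => (fun v => c • v) ⁻¹' U') ?_ f ?_
        · intro i
          exact (hU'o.preimage (by fun_prop)).mem_nhds hcU
        · intro y' hy' h
          obtain ⟨c', hc', h1⟩ := h 0
          refine hf y' hy' ⟨c * c', mul_ne_zero hc hc', hU'U ?_⟩
          rw [mul_smul]; exact h1
      · intro hf
        exact ⟨Set.univ, Filter.univ_mem, fun y hy _ t => pt_smul hX.homog hy hf t⟩
    · right
      push Not at hA
      obtain ⟨U, hU, h⟩ := hA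
      refine ⟨U, hU, fun y hy hyU => ?_⟩
      by_cases hyT : ∀ g ∈ T, eval y g = 0
      · exact Or.inl hyT
      · push Not at hyT
        obtain ⟨e, he, s, hs, e1⟩ := h y hy hyU hyT
        exact Or.inr ⟨e, he, s, hs, e1⟩
  refine ⟨tri, ?_⟩
  intro hT x hx
  rcases tri x hx with h | ⟨U₀, hU₀, h₀⟩
  · exact Or.inr (Or.inl h)
  obtain ⟨U₁, hU₁, h₁⟩ := sep σ hx E fun e he => (hEpt e he).1
  have key : ∀ y : Fin n → K, Pt (RingHom.id K) I y → (∃ c : L, c ≠ 0 ∧ c • (σ ∘ y) ∈ U₀ ∩ U₁) →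
      ∃ e ∈ E, (∃ s : K, s ≠ 0 ∧ y = s • e) ∧ ∃ t : L, t ≠ 0 ∧ x = t • (σ ∘ e) := by
    rintro y hy ⟨c, hc, hcU⟩
    rcases h₀ y hy ⟨c, hc, hcU.1⟩ with h | ⟨e, he, s, hs, e1⟩
    · exact absurd h (hT y hy)
    refine ⟨e, he, ⟨s, hs, e1⟩, h₁ e he (c * σ s) (mul_ne_zero hc (by simpa using hs)) ?_⟩
    have : c • (σ ∘ y) = (c * σ s) • (σ ∘ e) := by
      rw [e1]
      funext i
      simp [mul_assoc]
    rw [← this]
    exact hcU.2
  by_cases hB : ∃ e ∈ E, ∃ t : L, t ≠ 0 ∧ x = t • (σ ∘ e)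
  · right; right
    obtain ⟨e, he, s, hs, e1⟩ := hB
    refine ⟨e, he, ⟨s, hs, e1⟩, ?_⟩
    ext f
    constructor
    · rintro ⟨U, hU, hf⟩
      exact hf e (hEpt e he) ⟨s, hs, by rw [← e1]; exact mem_of_mem_nhds hU⟩
    · intro hf
      refine ⟨U₀ ∩ U₁, Filter.inter_mem hU₀ hU₁, ?_⟩
      intro y hy hyU t
      obtain ⟨e', he', ⟨s₁, hs₁, rfl⟩, s', hs', e1'⟩ := key y hy hyU
      obtain ⟨u, -, hu⟩ := same_of_same σ (hEpt e' he').1 (hEpt e he).1 ⟨s'⁻¹ * s, mul_ne_zero (inv_ne_zero hs') hs, by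
        rw [mul_smul, ← e1, e1', smul_smul, inv_mul_cancel₀ hs', one_smul]⟩
      rw [hu, smul_smul, smul_smul]
      exact hf _
  · left
    push Not at hB
    ext f
    simp only [Set.mem_univ, iff_true]
    refine ⟨U₀ ∩ U₁, Filter.inter_mem hU₀ hU₁, ?_⟩
    intro y hy hyU t
    obtain ⟨e, he, -, s, hs, h⟩ := key y hy hyU
    exact absurd h (hB e he s hs)

end Pool.Agent.Q44.SA
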