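import Pool.Agent.Q190.SA.NE
import Pool.Agent.Q190.SA.Bas

/-!
# Project SA: recurrence (adapted from the proof of helper224 for project WK)
-/

set_option autoImplicit false

namespace Pool.Agent.Q44.SA

open MvPolynomial Pool.Agent.Q190.SA

/-- recurrence, for homogeneous ideals -/
def S_recH : Prop := ∀ (K : Type) [Field K] (κ : Type) [Fintype κ] (L : κ → Type)
  [∀ i, NontriviallyNormedField (L i)] [∀ i, IsUltrametricDist (L i)] [∀ i, ProperSpace (L i)]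
  (σ : ∀ i, K →+* L i) (n : ℕ) (I : Ideal (MvPolynomial (Fin n) K)), Homog I → ∀ (φ ψ : Mor I), LeftInv ψ φ →
  (∀ i, GoodM φ (σ i)) → (∀ i, GoodM ψ (σ i)) → ∀ z : ℕ → Fin n → K, Orb φ (RingHom.id K) z → ∀ ε : ℝ, 0 < ε →
  ∃ m : ℕ, 0 < m ∧ ∀ (j : ℕ) (i : κ), ∃ c : L i, c ≠ 0 ∧ ‖c • (σ i ∘ z (m * j)) - σ i ∘ z 0‖ ≤ ε

lemma exists_unit {L : Type} [NormedField L] {n : ℕ} (v : Fin n → L) (hv : v ≠ 0) :
    ∃ t : L, t ≠ 0 ∧ ‖t • v‖ = 1 := by
  obtain ⟨j, hj⟩ := Function.ne_iff.mp hv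
  have : Nonempty (Fin n) := ⟨j⟩
  obtain ⟨a, ha⟩ := Finite.exists_max (fun a => ‖v a‖)
  have hva : v a ≠ 0 := by
    intro h0
    apply hv
    funext b
    have := ha b
    rw [h0, norm_zero] at this
    exact norm_le_zero_iff.1 this
  have hva' : 0 < ‖v a‖ := norm_pos_iff.2 hva
  refine ⟨(v a)⁻¹, inv_ne_zero hva, le_antisymm ?_ ?_⟩
  · rw [pi_norm_le_iff_of_nonneg zero_le_one]
    intro b
    rw [Pi.smul_apply, smul_eq_mul, norm_mul, norm_inv, inv_mul_le_iff₀ hva', mul_one]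
    exact ha b
  · have h1 := norm_le_pi_norm ((v a)⁻¹ • v) a
    rw [Pi.smul_apply, smul_eq_mul, inv_mul_cancel₀ hva, norm_one] at h1
    exact h1

lemma near_refl {L : Type} [NormedField L] {n : ℕ} {ε : ℝ} (hε : 0 ≤ ε) (x : Fin n → L) : Near ε x x := by
  refine ⟨1, norm_one, ?_⟩
  rw [one_smul, sub_self, norm_zero]
  exact hε

lemma near_trans {L : Type} [NormedField L] [IsUltrametricDist L] {n : ℕ} {ε : ℝ} {x y z : Fin n → L}
    (h1 : Near ε x y) (h2 : Near ε y z) : Near ε x z := by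
  obtain ⟨s, hs, h1⟩ := h1
  obtain ⟨t, ht, h2⟩ := h2
  have hε : 0 ≤ ε := (norm_nonneg _).trans h1
  refine ⟨s * t, by rw [norm_mul, hs, ht, one_mul], ?_⟩
  rw [pi_norm_le_iff_of_nonneg hε] at h1 h2 ⊢
  intro a
  have e : (x - (s * t) • z) a = (x - s • y) a + s * (y - t • z) a := by
    simp only [Pi.sub_apply, Pi.smul_apply, smul_eq_mul]
    ring
  rw [e]
  refine (IsUltrametricDist.norm_add_le_max _ _).trans (max_le (h1 a) ?_)
  rw [norm_mul, hs, one_mul]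
  exact h2 a

/-- from the normalised vectors to the original ones -/
lemma fin_step {L : Type} [NormedField L] {n : ℕ} {ε ε' : ℝ} {t t₀ : L} (ht : t ≠ 0) (ht₀ : t₀ ≠ 0)
    {v v₀ : Fin n → L} (h : Near ε' (t • v) (t₀ • v₀)) (hε : ‖t₀‖⁻¹ * ε' ≤ ε) :
    ∃ c : L, c ≠ 0 ∧ ‖c • v - v₀‖ ≤ ε := by
  obtain ⟨s, hs, h⟩ := h
  have hs0 : s ≠ 0 := by
    intro h0
    rw [h0, norm_zero] at hs
    exact zero_ne_one hs
  refine ⟨(s * t₀)⁻¹ * t, mul_ne_zero (inv_ne_zero (mul_ne_zero hs0 ht₀)) ht, ?_⟩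
  have e : ((s * t₀)⁻¹ * t) • v - v₀ = (s * t₀)⁻¹ • (t • v - s • t₀ • v₀) := by
    rw [smul_sub, smul_smul, smul_smul, smul_smul, mul_assoc, inv_mul_cancel₀ (mul_ne_zero hs0 ht₀),
      one_smul]
  rw [e, norm_smul, norm_inv, norm_mul, hs, one_mul]
  exact (mul_le_mul_of_nonneg_left h (inv_nonneg.2 (norm_nonneg _))).trans hε

theorem eval_map {K F : Type} [Field K] [Field F] {n : ℕ} (σ : K →+* F) (x : Fin n → K) (f : MvPolynomial (Fin n) K) :
    eval₂ σ (σ ∘ x) f = σ (eval₂ (RingHom.id K) x f) := by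
  rw [eval₂_id]
  exact (eval₂_comp σ x f).symm

theorem pt_map {K F : Type} [Field K] [Field F] {n : ℕ} {I : Ideal (MvPolynomial (Fin n) K)} (σ : K →+* F)
    {x : Fin n → K} (h : Pt (RingHom.id K) I x) : Pt σ I (σ ∘ x) := by
  refine ⟨?_, fun f hf => by rw [eval_map, h.2 f hf, map_zero]⟩
  intro h0
  apply h.1
  funext a
  have h1 := congrFun h0 a
  rw [Function.comp_apply, Pi.zero_apply, map_eq_zero] at h1
  exact h1

theorem rel_map {K F : Type} [Field K] [Field F] {n : ℕ} {I : Ideal (MvPolynomial (Fin n) K)} (φ : Mor I)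
    (σ : K →+* F) {x y : Fin n → K} (h : φ.Rel (RingHom.id K) x y) : φ.Rel σ (σ ∘ x) (σ ∘ y) := by
  obtain ⟨l, ⟨a, ha⟩, c, hc, hy⟩ := h
  refine ⟨l, ⟨a, ?_⟩, σ c, (map_ne_zero σ).2 hc, fun b => ?_⟩
  · rw [eval_map]
    exact (map_ne_zero σ).2 ha
  · rw [eval_map, Function.comp_apply, hy b, map_mul]

theorem recH : S_recH := by
  intro K _ κ _ L _ _ _ σ n I hI φ ψ hinv hgood hgood' z hz ε hε
  classical
  have hpt : ∀ (i : κ) (k : ℕ), Pt (σ i) I (σ i ∘ z k) := fun i k => pt_map (σ i) (hz.1 k)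
  have hrel : ∀ (i : κ) (k : ℕ), φ.Rel (σ i) (σ i ∘ z k) (σ i ∘ z (k + 1)) := fun i k => rel_map φ (σ i) (hz.2 k)
  choose t ht0 ht1 using fun (i : κ) (k : ℕ) => exists_unit (σ i ∘ z k) (hpt i k).1
  set T : ℝ := 1 + ∑ i, ‖t i 0‖⁻¹ with hT
  have hTs : ∀ i, ‖t i 0‖⁻¹ ≤ T := by
    intro i
    have h1 := Finset.single_le_sum (s := Finset.univ) (f := fun i => ‖t i 0‖⁻¹)
      (fun i _ => inv_nonneg.2 (norm_nonneg _)) (Finset.mem_univ i)
    rw [hT]
    linarith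
  have hT1 : 1 ≤ T := by
    rw [hT]
    have : 0 ≤ ∑ i, ‖t i 0‖⁻¹ := Finset.sum_nonneg fun i _ => inv_nonneg.2 (norm_nonneg _)
    linarith
  set ε' : ℝ := min (1 / 2) (ε / T) with hε'
  have hε'0 : 0 < ε' := lt_min (by norm_num) (by positivity)
  have hε'1 : ε' < 1 := (min_le_left _ _).trans_lt (by norm_num)
  have hε'T : T * ε' ≤ ε := by
    have : ε' ≤ ε / T := min_le_right _ _
    rw [le_div_iff₀ (by linarith)] at this
    linarith
  have hb0 : ∀ i, ‖t i 0‖⁻¹ * ε' ≤ ε := fun i =>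
    le_trans (mul_le_mul_of_nonneg_right (hTs i) hε'0.le) hε'T
  -- the normalised orbit
  set U : ∀ i : κ, ℕ → (Fin n → L i) := fun i k => t i k • (σ i ∘ z k) with hU
  have hU1 : ∀ i k, ‖U i k‖ = 1 := ht1
  have hUp : ∀ i k, Pt (σ i) I (U i k) := fun i k => pt_smul hI (σ i) (hpt i k) (ht0 i k)
  have hUr : ∀ i k, φ.Rel (σ i) (U i k) (U i (k + 1)) := fun i k => rel_smul φ (σ i) (hrel i k) (ht0 i k) (ht0 i (k + 1))
  have hUr' : ∀ i k, ψ.Rel (σ i) (U i (k + 1)) (U i k) := fun i k =>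
    rel_inv φ ψ hinv (σ i) (hUp i k) (hUr i k) (hUp i (k + 1))
  -- pigeon hole principle
  set xs : ℕ → (∀ i : κ, Fin n → L i) := fun k i => U i k with hxs
  have hxb : ∀ k, xs k ∈ Metric.closedBall (0 : ∀ i : κ, Fin n → L i) 1 := by
    intro k
    rw [Metric.mem_closedBall, dist_zero_right, pi_norm_le_iff_of_nonneg zero_le_one]
    intro i
    exact (hU1 i _).le
  obtain ⟨a, -, θ, hθ, hlim⟩ := tendsto_subseq_of_bounded Metric.isBounded_closedBall hxb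
  obtain ⟨N, hN⟩ := Metric.cauchySeq_iff'.1 hlim.cauchySeq ε' hε'0
  have hd := hN (N + 1) (by omega)
  have hlt : θ N < θ (N + 1) := hθ (by omega)
  set m₁ := θ N with hm₁
  obtain ⟨m, hm0, hm⟩ : ∃ m, 0 < m ∧ θ (N + 1) = m₁ + m := ⟨θ (N + 1) - m₁, by omega, by omega⟩
  have hdi : ∀ i, dist (xs (m₁ + m) i) (xs m₁ i) < ε' := by
    intro i
    have h1 : dist (xs (θ (N + 1))) (xs (θ N)) < ε' := hd
    rw [hm] at h1
    exact (dist_le_pi_dist (xs (m₁ + m)) (xs m₁) i).trans_lt h1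
  set P : κ → ℕ → Prop := fun i k => Near ε' (U i (k + m)) (U i k) with hP
  have hP0 : ∀ i, P i m₁ := by
    intro i
    have h1 := hdi i
    rw [dist_eq_norm] at h1
    refine ⟨1, norm_one, ?_⟩
    rw [one_smul]
    exact h1.le
  have e1 : ∀ k : ℕ, k + 1 + m = k + m + 1 := fun k => by ring
  have hdown : ∀ i k, P i (k + 1) → P i k := by
    intro i k h1
    have h2 := hUr' i (k + m)
    rw [← e1] at h2
    exact nearM K (L i) (σ i) n I ψ (hgood' i) ε' hε'0 hε'1 _ _ _ _ (hUp i _) (hUp i _) (hU1 i _) (hU1 i _)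
      (hU1 i _) (hU1 i _) h2 (hUr' i k) h1
  have hup : ∀ i k, P i k → P i (k + 1) := by
    intro i k h1
    have h2 := hUr i (k + m)
    rw [← e1] at h2
    exact nearM K (L i) (σ i) n I φ (hgood i) ε' hε'0 hε'1 _ _ _ _ (hUp i _) (hUp i _) (hU1 i _) (hU1 i _)
      (hU1 i _) (hU1 i _) h2 (hUr i k) h1
  have hdesc : ∀ i k, P i k → P i 0 := by
    intro i k
    induction k with
    | zero => exact fun h1 => h1
    | succ k ih => exact fun h1 => ih (hdown i k h1)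
  have hasc : ∀ i k, P i k := by
    intro i k
    induction k with
    | zero => exact hdesc i _ (hP0 i)
    | succ k ih => exact hup i k ih
  have hall0 : ∀ (j : ℕ) (i : κ), Near ε' (U i (m * j)) (U i 0) := by
    intro j i
    induction j with
    | zero => exact near_refl hε'0.le _
    | succ j ih =>
      have e : m * (j + 1) = m * j + m := by ring
      rw [e]
      exact near_trans (hasc i (m * j)) ih
  exact ⟨m, hm0, fun j i => fin_step (ht0 i _) (ht0 i _) (hall0 j i) (hb0 i)⟩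

end Pool.Agent.Q44.SA
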