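import Pool.Agent.Q149.SA.UB
import Pool.Agent.Q190.SA.Bas

/-!
# Project SA: unbounded heights (proof by helper149, adapted)
-/

set_option autoImplicit false

namespace Pool.Agent.Q44.SA

open Pool.Agent.Q149.SA.UB Pool.Agent.Q190.SA
open Pool.Agent.Q44.SA Height MvPolynomial

theorem unb : S_unbM := by
  intro K _ _ n I φ ψ hinv κ c hκ z hz hrec hc B
  by_contra hcon
  push Not at hcon
  have hz0 : ∀ k, z k ≠ 0 := fun k => (hz.1 k).1
  obtain ⟨S, hS⟩ := nc K n B
  have hrep : ∀ k, ∃ s : S, ∃ t : K, t ≠ 0 ∧ z k = t • (s : Fin n → K) := by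
    intro k
    obtain ⟨s, hs, t, ht, hzt⟩ := hS (z k) (hz0 k) (hcon k)
    exact ⟨⟨s, hs⟩, t, ht, hzt⟩
  choose r hr using hrep
  obtain ⟨k, l, hkl, heq⟩ := Finite.exists_ne_map_eq_of_infinite r
  -- one step up and one step down
  have hup : ∀ i j, (∃ t : K, t ≠ 0 ∧ z i = t • z j) → ∃ t : K, t ≠ 0 ∧ z (i + 1) = t • z (j + 1) := by
    rintro i j ⟨t, ht, he⟩
    have h2 := ((relP φ ψ hinv (RingHom.id K) (z j) (hz.1 j)).2 (z (j + 1)) (hz.2 j)).2.2 t ht (z (i + 1))
    rw [← he] at h2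
    exact h2 (hz.2 i)
  have hdown : ∀ i j, (∃ t : K, t ≠ 0 ∧ z (i + 1) = t • z (j + 1)) → ∃ t : K, t ≠ 0 ∧ z i = t • z j := by
    rintro i j ⟨t, ht, he⟩
    have h2 := ((relP φ ψ hinv (RingHom.id K) (z j) (hz.1 j)).2 (z (j + 1)) (hz.2 j)).2.1 1 t one_ne_zero ht
    rw [one_smul, ← he] at h2
    have h3 := ((relP φ ψ hinv (RingHom.id K) (z j) (hz.1 j)).2 (z (i + 1)) h2).1 (hz.1 (i + 1))
    have h4 := ((relP φ ψ hinv (RingHom.id K) (z i) (hz.1 i)).2 (z (i + 1)) (hz.2 i)).1 (hz.1 (i + 1))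
    exact rel_uni (RingHom.id K) ψ (hz.1 (i + 1)) h3 h4
  have key : ∀ k l : ℕ, k < l → r k = r l → False := by
    intro k l hlt he1
    have hprop : ∃ s : K, s ≠ 0 ∧ z k = s • z l := by
      obtain ⟨t, ht, hzt⟩ := hr k
      obtain ⟨t', ht', hzt'⟩ := hr l
      refine ⟨t * t'⁻¹, mul_ne_zero ht (inv_ne_zero ht'), ?_⟩
      rw [hzt', smul_smul, mul_assoc, inv_mul_cancel₀ ht', mul_one, ← he1]
      exact hzt
    obtain ⟨p, hp⟩ : ∃ p, l = k + p := ⟨l - k, by omega⟩
    have hd : ∀ i, (∃ s : K, s ≠ 0 ∧ z i = s • z (i + p)) → ∃ s : K, s ≠ 0 ∧ z 0 = s • z (0 + p) := by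
      intro i
      induction i with
      | zero => exact id
      | succ i ih =>
        intro h
        apply ih
        apply hdown
        have e : i + 1 + p = i + p + 1 := by omega
        rwa [e] at h
    rw [hp] at hprop
    have hu : ∀ i, ∃ s : K, s ≠ 0 ∧ z i = s • z (i + p) := by
      intro i
      induction i with
      | zero => exact hd k hprop
      | succ i ih =>
        have h := hup _ _ ih
        have e : i + 1 + p = i + p + 1 := by omega
        rwa [e]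
    have hper : ∀ i, logHeight (z i) = logHeight (z (i + p)) := by
      intro i
      obtain ⟨s, hs, he⟩ := hu i
      rw [he, logHeight_smul_eq_logHeight _ hs]
    obtain ⟨m, hm, hmax⟩ := periodic_max (fun i => logHeight (z i)) p (by omega) hper
    obtain ⟨m', rfl⟩ : ∃ m', m = m' + 1 := ⟨m - 1, by omega⟩
    have h4 := hrec m'
    have h5 := hmax m'
    have h6 := hmax (m' + 2)
    have h7 := hmax 0
    have h8 : (κ - 2) * logHeight (z 0) ≤ (κ - 2) * logHeight (z (m' + 1)) :=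
      mul_le_mul_of_nonneg_left h7 (by linarith)
    linarith
  rcases lt_or_gt_of_ne hkl with h | h
  · exact key k l h heq
  · exact key l k h heq.symm

end Pool.Agent.Q44.SA
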