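import Pool.Agent.Q44.SA.Det
import Pool.Agent.Q44.SA.Unb
import Pool.Agent.Q44.SA.Rec
import Pool.Agent.Q53.SA.FL
import Pool.Agent.Q190.SA.GD
import Pool.Agent.Q190.SA.NE
import Pool.Agent.Q149.SA.NO
import Pool.Agent.Q251.SA.CM
import Pool.Agent.Q195.SA.DH
import Pool.Agent.Q31.SA.MK
import Pool.Agent.Q210.SA.Iv
import Pool.Agent.Q224.SA.DF
import Pool.Agent.Q224.SA.DG
import Pool.Agent.Q224.SA.DM
import Pool.Agent.Q224.SA.TR
import Pool.Agent.Q53.SA.AD
import Pool.Agent.Q53.SA.DN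
import Pool.Agent.Q53.SA.DE
import Pool.Agent.Q44.WK.All

/-!
# Project SA: everything together
-/

set_option autoImplicit false

namespace Pool.Agent.Q44.SA

theorem allM : S_finM := by
  have root := Pool.Agent.Q241.WK.RO.main
  have f3 := Pool.Agent.Q285.WK.FB.main
  have good := Pool.Agent.Q190.SA.main_gd
  have nc := Pool.Agent.Q149.SA.UB.nc
  have grow := Pool.Agent.Q149.SA.UB.grow
  have norm := Pool.Agent.Q149.SA.NO.main
  have fld := Pool.Agent.Q53.SA.FL.main f3
  have cmp := Pool.Agent.Q251.SA.CM.main root fld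
  have dens := Pool.Agent.Q53.SA.DE.main norm cmp
  exact finM (topM good recH nc unb grow dens)

theorem allD : S_finD := by
  have adj := Pool.Agent.Q53.SA.AD.adj
  have dC := Pool.Agent.Q53.SA.AD.dC
  have dN := Pool.Agent.Q53.SA.DN.main
  have dH := Pool.Agent.Q195.SA.DH.main adj dN
  have mk := Pool.Agent.Q31.SA.MK.main
  have inv := Pool.Agent.Q210.SA.Iv.main
  have dF := Pool.Agent.Q224.SA.DF.dF dC
  have dB := Pool.Agent.Q224.SA.DF.dB dC
  have dh := Pool.Agent.Q224.SA.DG.main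
  have dM := Pool.Agent.Q224.SA.DM.main dC mk inv dF dB dh
  have tr := Pool.Agent.Q224.SA.TR.main
  exact finD allM dM dH dh tr

end Pool.Agent.Q44.SA
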