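import Mathlib

/-!
# Project SA: Mazur's question for surfaces with an automorphism which expands the heights (definitions)

`I` is a homogeneous prime ideal of `K[X 0, ..., X (n-1)]`, and `V(I)` the projective variety of its zeros.
-/

set_option autoImplicit false

namespace Pool.Agent.Q44.SA

open MvPolynomial

/-- homogeneous ideals -/
def Homog {K : Type} [Field K] {n : ℕ} (I : Ideal (MvPolynomial (Fin n) K)) : Prop :=
  ∀ f ∈ I, ∀ d, homogeneousComponent d f ∈ I

/-- `x` is a point of `V(I)` over an extension of `K` -/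
def Pt {K F : Type} [Field K] [Field F] {n : ℕ} (σ : K →+* F) (I : Ideal (MvPolynomial (Fin n) K)) (x : Fin n → F) :
    Prop :=
  x ≠ 0 ∧ ∀ f ∈ I, eval₂ σ x f = 0

/-- A morphism `V(I) → V(I)` over `K`. It is given by finitely many tuples of forms (of the same positive degree
in each tuple) which have no common zero on `V(I)` and coincide (up to scalars) where they are defined. -/
structure Mor {K : Type} [Field K] {n : ℕ} (I : Ideal (MvPolynomial (Fin n) K)) where
  /-- the number of tuples -/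
  p : ℕ
  /-- the degrees -/
  d : Fin p → ℕ
  /-- the tuples of forms -/
  F : Fin p → Fin n → MvPolynomial (Fin n) K
  pos : ∀ l, 0 < d l
  hom : ∀ l a, (F l a).IsHomogeneous (d l)
  base : ∀ k : Fin n, X k ∈ (I ⊔ Ideal.span {g | ∃ l a, g = F l a}).radical
  agree : ∀ l l' a b, F l a * F l' b - F l b * F l' a ∈ I
  into : ∀ l, ∀ f ∈ I, bind₁ (F l) f ∈ I

variable {K : Type} [Field K] {n : ℕ} {I : Ideal (MvPolynomial (Fin n) K)}

/-- `y` is the image of the point `x` -/
def Mor.Rel (φ : Mor I) {F : Type} [Field F] (σ : K →+* F) (x y : Fin n → F) : Prop :=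
  ∃ l, (∃ a, eval₂ σ x (φ.F l a) ≠ 0) ∧ ∃ c : F, c ≠ 0 ∧ ∀ a, y a = c * eval₂ σ x (φ.F l a)

/-- `ψ (φ x) = x` on `V(I)` -/
def LeftInv (ψ φ : Mor I) : Prop :=
  ∀ l l' a b, X a * bind₁ (φ.F l) (ψ.F l' b) - X b * bind₁ (φ.F l) (ψ.F l' a) ∈ I

/-- an orbit of `φ` -/
def Orb (φ : Mor I) {F : Type} [Field F] (σ : K →+* F) (z : ℕ → Fin n → F) : Prop :=
  (∀ k, Pt σ I (z k)) ∧ ∀ k, φ.Rel σ (z k) (z (k + 1))

/-- good reduction of `φ`: integral coefficients, no common zero modulo the maximal ideal -/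
def GoodM (φ : Mor I) {L : Type} [NormedField L] (σ : K →+* L) : Prop :=
  (∀ l a m, ‖σ (coeff m (φ.F l a))‖ ≤ 1) ∧ ∀ x : Fin n → L, Pt σ I x → ‖x‖ = 1 → ∃ l a, ‖eval₂ σ x (φ.F l a)‖ = 1

/-- `x` and `y` (of norm one) define points of the projective space at distance at most `ε` -/
def Near {L : Type} [NormedField L] (ε : ℝ) (x y : Fin n → L) : Prop := ∃ s : L, ‖s‖ = 1 ∧ ‖x - s • y‖ ≤ ε

/-- the coordinates of `v` are, up to a common factor, in `E` -/
def DefBy {Ω : Type} [Field Ω] [Algebra K Ω] (E : IntermediateField K Ω) (v : Fin n → Ω) : Prop :=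
  ∃ s : Ω, s ≠ 0 ∧ ∀ a, s * v a ∈ E

/-! ### Determinantal quartic surfaces -/

/-- a tensor of format 4 x 4 x 4 -/
abbrev Ten (F : Type) : Type := Fin 4 → Fin 4 → Fin 4 → F

/-- the tensor with cyclically exchanged indices -/
def Ten.rot {F : Type} (A : Ten F) : Ten F := fun a b c => A c a b

/-- the image under a homomorphism -/
def Ten.map {F E : Type} [CommRing F] [CommRing E] (σ : F →+* E) (A : Ten F) : Ten E := fun a b c => σ (A a b c)

/-- the matrix `∑ w a * A a` -/
def Ten.mat {F : Type} [CommRing F] (A : Ten F) (w : Fin 4 → F) : Matrix (Fin 4) (Fin 4) F :=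
  Matrix.of fun b c => ∑ a, A a b c * w a

/-- the matrix of linear forms -/
noncomputable def Ten.matP {F : Type} [CommRing F] (A : Ten F) : Matrix (Fin 4) (Fin 4) (MvPolynomial (Fin 4) F) :=
  Matrix.of fun b c => ∑ a, C (A a b c) * X a

/-- the matrices `mat w`, `w ≠ 0`, have rank at least three -/
def Ten.Rk {F : Type} [CommRing F] (A : Ten F) : Prop := ∀ w : Fin 4 → F, w ≠ 0 → (A.mat w).adjugate ≠ 0

/-- `v` is the next vector after `w` in the chain: `v * mat w = 0` -/
def Ten.Nxt {F : Type} [CommRing F] (A : Ten F) (w v : Fin 4 → F) : Prop :=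
  w ≠ 0 ∧ v ≠ 0 ∧ ∀ c, ∑ a, ∑ b, A a b c * w a * v b = 0

/-- a row of the adjugate matrix: cubic forms which give the next vector -/
noncomputable def Ten.row {F : Type} [CommRing F] (A : Ten F) (a : Fin 4) : Fin 4 → MvPolynomial (Fin 4) F :=
  fun b => A.matP.adjugate a b

/-- a column of the adjugate matrix: cubic forms which give the previous vector -/
noncomputable def Ten.col {F : Type} [CommRing F] (A : Ten F) (b : Fin 4) : Fin 4 → MvPolynomial (Fin 4) F :=
  fun a => A.matP.adjugate a b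

/-- three steps forward: forms of degree 27 -/
noncomputable def Ten.fwd {F : Type} [CommRing F] (A : Ten F) (l : Fin 4 × Fin 4 × Fin 4) (b : Fin 4) :
    MvPolynomial (Fin 4) F :=
  bind₁ (A.row l.1) (bind₁ (A.rot.row l.2.1) (A.rot.rot.row l.2.2 b))

/-- three steps back: forms of degree 27 -/
noncomputable def Ten.bwd {F : Type} [CommRing F] (A : Ten F) (l : Fin 4 × Fin 4 × Fin 4) (a : Fin 4) :
    MvPolynomial (Fin 4) F :=
  bind₁ (A.col l.1) (bind₁ (A.rot.rot.col l.2.1) (A.rot.col l.2.2 a))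

end Pool.Agent.Q44.SA
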