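import Pool.Agent.Q44.SA.Fin

/-!
# Project SA: determinantal quartic surfaces, assembly
-/

set_option autoImplicit false

namespace Pool.Agent.Q44.SA

open MvPolynomial Height

theorem eval_det {K : Type} [Field K] (A : Ten K) (x : Fin 4 → K) : eval x A.matP.det = (A.mat x).det := by
  rw [RingHom.map_det]
  congr 1
  ext i j
  simp [Ten.matP, Ten.mat]

theorem pt_iff {K : Type} [Field K] (A : Ten K) (x : Fin 4 → K) :
    Pt (RingHom.id K) (Ideal.span {A.matP.det}) x ↔ x ≠ 0 ∧ (A.mat x).det = 0 := by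
  constructor
  · rintro ⟨h1, h2⟩
    refine ⟨h1, ?_⟩
    have := h2 _ (Ideal.subset_span rfl)
    rwa [eval₂_id, eval_det] at this
  · rintro ⟨h1, h2⟩
    refine ⟨h1, fun f hf => ?_⟩
    obtain ⟨g, rfl⟩ := Ideal.mem_span_singleton'.mp hf
    rw [eval₂_id, map_mul, eval_det, h2, mul_zero]

/-- determinantal quartic surfaces, final form -/
def S_finD : Prop := ∀ (K : Type) [Field K] [NumberField K] (A : Ten K),
  (A.map (algebraMap K (AlgebraicClosure K))).Rk → (A.rot.map (algebraMap K (AlgebraicClosure K))).Rk →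
  (A.rot.rot.map (algebraMap K (AlgebraicClosure K))).Rk → Irreducible A.matP.det →
  ∃ (E : Finset (Fin 4 → K)) (N : ℕ), N ≠ 0 ∧ (∀ e ∈ E, e ≠ 0 ∧ (A.mat e).det = 0) ∧
    (∀ (r : ℕ) (L : Fin r → Type) [∀ i, NontriviallyNormedField (L i)] [∀ i, IsUltrametricDist (L i)]
      [∀ i, CompleteSpace (L i)] (σ : ∀ i, K →+* L i), (∀ i, DenseRange (σ i)) → (∀ i, ‖(N : L i)‖ = 1) →
      ∀ x : Fin 4 → K, x ≠ 0 → (A.mat x).det = 0 → (∀ e ∈ E, ¬ ∃ s : K, s ≠ 0 ∧ x = s • e) →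
      ∀ U : ∀ i, Set (Fin 4 → L i), (∀ i, U i ∈ nhds (σ i ∘ x)) →
      ∀ f : MvPolynomial (Fin 4) K,
        (∀ y : Fin 4 → K, y ≠ 0 → (A.mat y).det = 0 → (∀ i, ∃ c : L i, c ≠ 0 ∧ c • (σ i ∘ y) ∈ U i) →
          ∀ t : K, eval (t • y) f = 0) → f ∈ Ideal.span {A.matP.det}) ∧
    ∀ (L : Type) [NontriviallyNormedField L] [IsUltrametricDist L] [CompleteSpace L] (σ : K →+* L), DenseRange σ →
      ‖(N : L)‖ = 1 → ∀ x : Fin 4 → L, x ≠ 0 →
        closureIdeal σ (Ideal.span {A.matP.det}) x = Set.univ ∨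
        closureIdeal σ (Ideal.span {A.matP.det}) x = Ideal.span {A.matP.det} ∨
          ∃ e ∈ E, (∃ s : L, s ≠ 0 ∧ x = s • (σ ∘ e)) ∧
            closureIdeal σ (Ideal.span {A.matP.det}) x = pointIdeal e

theorem finD (hfin : S_finM) (hM : S_dM) (hH : S_dH) (hh : S_dh) (htr : S_tr) : S_finD := by
  intro K _ _ A h0 h1 h2 hirr
  have hp : (Ideal.span {A.matP.det}).IsPrime := (Ideal.span_singleton_prime hirr.ne_zero).mpr hirr.prime
  obtain ⟨φ, ψ, hinv, -, hφ, hψ⟩ := hM K A h0 h1 h2 hp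
  obtain ⟨c0, k0⟩ := hH K A h0
  obtain ⟨c1, k1⟩ := hH K A.rot h1
  obtain ⟨c2, k2⟩ := hH K A.rot.rot h2
  have hE : Expanding (Ideal.span {A.matP.det}) φ ψ {1} := by
    refine ⟨hp, (hh K A).2.1, htr K _ hirr, hinv, ?_, 18, 8 * c0 + 4 * c1 + 4 * c2, by norm_num, ?_⟩
    · intro x y _ h
      have := h 1 rfl
      simp at this
    · intro x y y' hx _ hy hy'
      obtain ⟨u, v, a1, a2, a3⟩ := hφ x y hx hy
      obtain ⟨u', v', b1, b2, b3⟩ := hψ x y' hx hy'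
      have e0 := k0 u' x u b1 a1
      have e1 := k1 x u v a1 a2
      have e2 := k2 u v y a2 a3
      have e3 := k2 v' u' x b2 b1
      have e4 := k1 y' v' u' b3 b2
      linarith
  obtain ⟨E, N, hN, hEpt, hA, hB⟩ := hfin K 4 _ φ ψ {1} hE
  have hone : ∀ x : Fin 4 → K, ¬ ∀ g ∈ ({1} : Set (MvPolynomial (Fin 4) K)), eval x g = 0 := by
    intro x h
    have := h 1 rfl
    simp at this
  refine ⟨E, N, hN, fun e he => (pt_iff A e).mp (hEpt e he), ?_, ?_⟩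
  · intro r L _ _ _ σ hσ hNL x hx hx' hxE U hU f hf
    refine hA r L σ hσ hNL x ((pt_iff A x).mpr ⟨hx, hx'⟩) (hone x) hxE U hU f ?_
    intro y hy h
    exact hf y ((pt_iff A y).mp hy).1 ((pt_iff A y).mp hy).2 h
  · intro L _ _ _ σ hσ hNL
    exact (hB L σ hσ hNL).2 fun x _ => hone x

end Pool.Agent.Q44.SA
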