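import Pool.Agent.Q53.SA.FL
import Pool.Agent.Q190.SA.Bas

/-!
# Project SA: fields (proof by helper53, adapted)
-/

set_option autoImplicit false

namespace Pool.Agent.Q44.SA

open MvPolynomial Pool.Agent.Q53.SA.FL

theorem fldM (h2 : Pool.Agent.Q44.WK.S_f3) : S_fldM := by
  intro K Ω _ _ _ _ n I φ ψ hψ ζ hζ k α hA a b c d hb hd
  by_cases htr : Transcendental K (ζ k c / ζ k d)
  swap
  · -- algebraic
    have halg : IsAlgebraic K (ζ k c / ζ k d) := by
      by_contra h
      exact htr h
    obtain ⟨P, hP, hPw⟩ := halg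
    refine ⟨fun i => if (i : ℕ) = 0 then P else 0, ?_, ?_⟩
    · intro h
      have h4 := congrFun h 0
      rw [Pi.zero_apply, if_pos (by simp)] at h4
      exact hP h4
    · refine Finset.sum_eq_zero fun i _ => ?_
      show Polynomial.aeval (ζ k c / ζ k d) (if (i : ℕ) = 0 then P else 0) *
        (ζ 0 a / ζ 0 b) ^ (i : ℕ) = 0
      by_cases hi : (i : ℕ) = 0
      · rw [if_pos hi, hPw, zero_mul]
      · rw [if_neg hi, map_zero, zero_mul]
  · have hP : ∀ e : Fin n, ∃ P : Polynomial (IntermediateField.adjoin K {ζ k c / ζ k d}),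
        P ≠ 0 ∧ P.natDegree ≤ α ∧ Polynomial.aeval (ζ k e / ζ k d) P = 0 := by
      intro e
      obtain ⟨α', A, hα, hAh, hA0, hAv⟩ := hA ![c, d, e]
      obtain ⟨P, hP0, hPn, hPr⟩ := h2 K Ω α' A hAh hA0 (ζ k ∘ ![c, d, e]) hAv 0 1 2 hd
        (by decide) (by decide) (by decide) htr
      exact ⟨P, hP0, hPn.trans hα, hPr⟩
    have hE : ∀ s : Finset (Fin n), ∃ E : IntermediateField K Ω,
        IntermediateField.adjoin K {ζ k c / ζ k d} ≤ E ∧ (∀ e ∈ s, ζ k e / ζ k d ∈ E) ∧
        Pool.Agent.Q65.WK.FC.Sp (IntermediateField.adjoin K {ζ k c / ζ k d}) E (α ^ s.card) := by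
      classical
      intro s
      induction s using Finset.induction_on with
      | empty =>
        refine ⟨_, le_rfl, fun e he => absurd he (Finset.notMem_empty e), 1, ?_, fun _ => 1,
          fun x hx => ⟨fun _ => x, fun _ => hx, ?_⟩⟩
        · rw [Finset.card_empty, pow_zero]
        · simp
      | insert e s he ih =>
        obtain ⟨E, hFE, hs, hSp⟩ := ih
        obtain ⟨P, hP0, hPn, hPr⟩ := hP e
        obtain ⟨E', hEE', heE', hSp'⟩ := Pool.Agent.Q65.WK.FC.Sp_adj E (ζ k e / ζ k d) α
          (P.map (IntermediateField.inclusion hFE).toRingHom)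
          (by
            intro h0
            apply hP0
            apply Polynomial.map_injective _ (IntermediateField.inclusion hFE).toRingHom.injective
            rw [h0, Polynomial.map_zero])
          (Polynomial.natDegree_map_le.trans hPn)
          (by
            rw [← hPr, Polynomial.aeval_def, Polynomial.eval₂_map, Polynomial.aeval_def]
            rfl)
        refine ⟨E', hFE.trans hEE', fun i hi => ?_, ?_⟩
        · rcases Finset.mem_insert.1 hi with h | h
          · rw [h]
            exact heE'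
          · exact hEE' (hs i h)
        · have h3 := Pool.Agent.Q65.WK.FC.Sp_trans hSp hSp'
          rw [Finset.card_insert_of_notMem he, pow_succ, mul_comm]
          exact h3
    obtain ⟨E, -, hEv, hSp⟩ := hE Finset.univ
    rw [Finset.card_univ, Fintype.card_fin] at hSp
    have hDk : DefBy E (ζ k) := by
      refine ⟨(ζ k d)⁻¹, inv_ne_zero hd, fun i => ?_⟩
      rw [mul_comm, ← div_eq_mul_inv]
      exact hEv i (Finset.mem_univ i)
    have hdown : ∀ j, DefBy E (ζ j) → DefBy E (ζ 0) := by
      intro j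
      induction j with
      | zero => exact id
      | succ j ih =>
        intro hj
        refine ih (DefBy_rel ψ hj ?_)
        exact ((Pool.Agent.Q190.SA.relP φ ψ hψ (algebraMap K Ω) (ζ j) (hζ.1 j)).2 _ (hζ.2 j)).1 (hζ.1 (j + 1))
    obtain ⟨f, hf0, hf⟩ := Pool.Agent.Q65.WK.FC.Sp_rel _ E (α ^ n) hSp (ζ 0 a / ζ 0 b)
      (DefBy_div (hdown k hDk) a b)
    exact Pool.Agent.Q65.WK.FC.clear _ (ζ 0 a / ζ 0 b) (α ^ n) f hf0 hf

end Pool.Agent.Q44.SA
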