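import Pool.Agent.Q44.SA.Def
import Pool.Agent.Q44.WK.Stm

/-!
# Project SA: statements

`X = V(I)` is a projective surface over a number field `K` with an automorphism `φ` (inverse `ψ`) and
`κ h(P) ≤ h(φ P) + h(φ⁻¹ P) + c` with `κ > 2` for the rational points outside a closed subset stable under `ψ`. At
the places of good reduction `φ` is an isometry, so that `φ^{m j}(P)`, `j = 0, 1, 2, ...`, are close to `P` for some
`m > 0`. For all points outside the closed set and a finite set the heights of `φ^k(P)` grow exponentially, and then no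
curve contains the points `φ^{m j}(P)`. Second part: application to the determinantal quartic surfaces, with the
automorphism of Cayley and Oguiso. The statements are analogues of those of project WK (all proven:
`Pool/Agent/Q44/WK/Stm.lean` with the solutions `Pool/Agent/Q*/WK/*.lean`).
-/

set_option autoImplicit false

namespace Pool.Agent.Q44.SA

open MvPolynomial Height

/-! ### Part 1: the criterion -/

/-- **S_rel.** Morphisms and points over an extension field. Proof: some `x k ≠ 0`, and `X k ^ M = g + ∑ h l a * F l a` with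
`g ∈ I`, so some `F l a (x) ≠ 0`: existence. `F l (x)` is a point of `V(I)` by `into`. Homogeneity: `F l (s x) = s ^ d * F l (x)`.
Uniqueness up to scalars by `agree`. If `y = c F l (x)`, choose `l'`, `b` with `G l' b (y) ≠ 0` (`G` the forms of `ψ`); by
`LeftInv` `x a * G l' b (y) = x b * G l' a (y)`, so `x = (x b / G l' b (y)) G l' (y)`, and `x b ≠ 0`. -/
def S_rel : Prop := ∀ (K F : Type) [Field K] [Field F] (σ : K →+* F) (n : ℕ) (I : Ideal (MvPolynomial (Fin n) K))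
  (φ ψ : Mor I), LeftInv ψ φ → ∀ x : Fin n → F, Pt σ I x →
  (∃ y, φ.Rel σ x y) ∧ ∀ y, φ.Rel σ x y → Pt σ I y ∧ ψ.Rel σ y x ∧
    (∀ s t : F, s ≠ 0 → t ≠ 0 → φ.Rel σ (s • x) (t • y)) ∧
    ∀ s : F, s ≠ 0 → ∀ y', φ.Rel σ (s • x) y' → ∃ t : F, t ≠ 0 ∧ y' = t • y

/-- **S_goodM.** Good reduction outside finitely many primes. Proof: `X k ^ M = g + ∑ h l a * F l a` with `g ∈ I` for all `k`
(the same `M`); let `N ≠ 0` be an integer such that `N` times the coefficients of all `F l a` and `h l a` is integral over `ℤ`.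
If `‖(N : L)‖ = 1` these coefficients have norm at most one. For `‖x‖ = 1` choose `k` with `‖x k‖ = 1`. Analogue: S_good
of WK. -/
def S_goodM : Prop := ∀ (K : Type) [Field K] [NumberField K] (n : ℕ) (I : Ideal (MvPolynomial (Fin n) K)) (φ : Mor I),
  ∃ N : ℕ, N ≠ 0 ∧ ∀ (L : Type) [NontriviallyNormedField L] [IsUltrametricDist L] (σ : K →+* L),
    ‖(N : L)‖ = 1 → GoodM φ σ

/-- **S_nearM.** Proof: multiply `x'` by the unit of `Near` (homogeneity), so that `‖x - x'‖ ≤ ε`. Choose `l`, `a` with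
`‖F l a (x)‖ = 1`. Then `‖F l b (x) - F l b (x')‖ ≤ ε` for all `b` (integral coefficients), so the vectors `F l (x)`, `F l (x')`
have norm one, and `y`, `y'` are unit multiples of them by `agree`. -/
def S_nearM : Prop := ∀ (K L : Type) [Field K] [NormedField L] [IsUltrametricDist L] (σ : K →+* L) (n : ℕ)
  (I : Ideal (MvPolynomial (Fin n) K)) (φ : Mor I), GoodM φ σ → ∀ ε : ℝ, 0 < ε → ε < 1 →
  ∀ x x' y y' : Fin n → L, Pt σ I x → Pt σ I x' → ‖x‖ = 1 → ‖x'‖ = 1 → ‖y‖ = 1 → ‖y'‖ = 1 → φ.Rel σ x y →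
  φ.Rel σ x' y' → Near ε x x' → Near ε y y'

/-- **S_recM.** Recurrence. Proof: as S_rec of WK: pigeon hole for the normalised `σ i ∘ z k`, then down with `ψ`, up with
`φ`, transitivity of `Near`. -/
def S_recM : Prop := ∀ (K : Type) [Field K] (κ : Type) [Fintype κ] (L : κ → Type)
  [∀ i, NontriviallyNormedField (L i)] [∀ i, IsUltrametricDist (L i)] [∀ i, ProperSpace (L i)]
  (σ : ∀ i, K →+* L i) (n : ℕ) (I : Ideal (MvPolynomial (Fin n) K)) (φ ψ : Mor I), LeftInv ψ φ →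
  (∀ i, GoodM φ (σ i)) → (∀ i, GoodM ψ (σ i)) → ∀ z : ℕ → Fin n → K, Orb φ (RingHom.id K) z → ∀ ε : ℝ, 0 < ε →
  ∃ m : ℕ, 0 < m ∧ ∀ (j : ℕ) (i : κ), ∃ c : L i, c ≠ 0 ∧ ‖c • (σ i ∘ z (m * j)) - σ i ∘ z 0‖ ≤ ε

/-- **S_ncM.** Northcott for the projective space. Analogue: S_nc of WK. -/
def S_ncM : Prop := ∀ (K : Type) [Field K] [NumberField K] (n : ℕ) (B : ℝ), ∃ S : Finset (Fin n → K),
  ∀ x : Fin n → K, x ≠ 0 → logHeight x ≤ B → ∃ s ∈ S, ∃ t : K, t ≠ 0 ∧ x = t • s

/-- **S_unbM.** Proof: if the heights are bounded, then `z k` and `z l` are proportional for some `k < l` (S_ncM); by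
`ψ` and uniqueness (S_rel) so are `z 0` and `z (l - k)`, and by `φ` `z j` and `z (j + l - k)` for all `j`: the heights
`u j` are periodic and have a maximum `M = u k` with `k ≥ 1`, `κ M ≤ 2 M + c`, but `M ≥ u 0`. -/
def S_unbM : Prop := ∀ (K : Type) [Field K] [NumberField K] (n : ℕ) (I : Ideal (MvPolynomial (Fin n) K))
  (φ ψ : Mor I), LeftInv ψ φ → ∀ (κ c : ℝ), 2 < κ → ∀ z : ℕ → Fin n → K, Orb φ (RingHom.id K) z →
  (∀ k, κ * logHeight (z (k + 1)) ≤ logHeight (z k) + logHeight (z (k + 2)) + c) → c < (κ - 2) * logHeight (z 0) →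
  ∀ B : ℝ, ∃ k, B < logHeight (z k)

/-- **S_growM.** Real numbers. Proof: `ρ = κ / 2`; let `k` be the first index with
`u k > max 1 (max (u 0) (|c| / (κ / 2 - 1)))`; then `u (k+1) ≥ κ u k - u (k-1) - c ≥ (κ - 1) u k - c ≥ (κ / 2) u k`, and so on. -/
def S_growM : Prop := ∀ (u : ℕ → ℝ) (κ c : ℝ), 2 < κ → (∀ k, 0 ≤ u k) →
  (∀ k, κ * u (k + 1) ≤ u k + u (k + 2) + c) → (∀ B : ℝ, ∃ k, B < u k) →
  ∃ ρ : ℝ, 1 < ρ ∧ ∃ k₀, ∀ k, k₀ ≤ k → ρ * u k ≤ u (k + 1) ∧ 1 ≤ u k

/-- **S_normA.** Elimination. Proof: in the domain `R = K[X] / I` let `t i` be the class of `X (a i)`, `i = 0, 1, 2`. If the `t i` are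
algebraically dependent there is a polynomial `B ≠ 0` in three variables with `B(X ∘ a) ∈ I`. If they are algebraically
independent, then `R` is algebraic over `K[t 0, t 1, t 2]` (transcendence degree 3), so `f` divides a nonzero element of it
(`IsAlgebraic.exists_nonzero_dvd`): there is `B ≠ 0` with `B(X ∘ a) ∈ I + (f)`. In both cases `B` vanishes at all
multiples `s • (x ∘ a)` for the points `x` in question, so all homogeneous components of `B` vanish at `x ∘ a` (`K` is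
infinite). Take a component which is not zero. -/
def S_normA : Prop := ∀ (K : Type) [Field K] [CharZero K] (n : ℕ) (I : Ideal (MvPolynomial (Fin n) K)), I.IsPrime →
  Homog I → Algebra.trdeg K (MvPolynomial (Fin n) K ⧸ I) = 3 → ∀ f : MvPolynomial (Fin n) K, f ∉ I →
  ∀ a : Fin 3 → Fin n, ∃ (α : ℕ) (A : MvPolynomial (Fin 3) K), A.IsHomogeneous α ∧ A ≠ 0 ∧
    ∀ x : Fin n → K, Pt (RingHom.id K) I x → (∀ s : K, eval (s • x) f = 0) → eval (x ∘ a) A = 0

/-- **S_fldM.** Proof: let `w = ζ k c / ζ k d`. If `w` is algebraic over `K`, take `p 0 = minpoly K w` and `p i = 0` for `i > 0`.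
Otherwise every `v e = ζ k e / ζ k d` is algebraic over `K(w)` of degree at most `α` (for `e ≠ c, d` by S_f3 of WK, applied to
the vector `ζ k ∘ ![c, d, e]`; `α ≥ 1`, since otherwise `A a` is a nonzero constant). So `E = K(w, v e (all e))` has degree at
most `α ^ n` over `K(w)`, and `DefBy E (ζ k)`. Since `ψ` is given by forms over `K`, `DefBy E (ζ (k-1))`, ..., `DefBy E (ζ 0)`,
and `u = ζ 0 a / ζ 0 b ∈ E` has degree at most `α ^ n` over `K(w)`; clear the denominators. Analogue: S_fld of WK. -/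
def S_fldM : Prop := ∀ (K Ω : Type) [Field K] [CharZero K] [Field Ω] [Algebra K Ω] (n : ℕ)
  (I : Ideal (MvPolynomial (Fin n) K)) (φ ψ : Mor I), LeftInv ψ φ → ∀ ζ : ℕ → Fin n → Ω,
  Orb φ (algebraMap K Ω) ζ → ∀ (k α : ℕ),
  (∀ a : Fin 3 → Fin n, ∃ (α' : ℕ) (A : MvPolynomial (Fin 3) K), α' ≤ α ∧ A.IsHomogeneous α' ∧ A ≠ 0 ∧
    aeval (ζ k ∘ a) A = 0) →
  ∀ a b c d : Fin n, ζ 0 b ≠ 0 → ζ k d ≠ 0 →
  ∃ p : Fin (α ^ n + 1) → Polynomial K, p ≠ 0 ∧
    ∑ i, Polynomial.aeval (ζ k c / ζ k d) (p i) * (ζ 0 a / ζ 0 b) ^ (i : ℕ) = 0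

/-- **S_cmpM.** Comparison of heights on a curve. Proof: as S_cmp of WK, with the germs `ζ k` of `i ↦ z (m * i + k)` and
`S_fldM` at the index `m * k`. -/
def S_cmpM : Prop := ∀ (K : Type) [Field K] [NumberField K] (n : ℕ) (I : Ideal (MvPolynomial (Fin n) K))
  (φ ψ : Mor I), LeftInv ψ φ → ∀ z : ℕ → Fin n → K, Orb φ (RingHom.id K) z → ∀ m : ℕ, 0 < m → ∀ α : ℕ,
  (∀ a : Fin 3 → Fin n, ∃ (α' : ℕ) (A : MvPolynomial (Fin 3) K), α' ≤ α ∧ A.IsHomogeneous α' ∧ A ≠ 0 ∧
    ∀ j, eval (z (m * j) ∘ a) A = 0) →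
  Filter.Tendsto (fun j : ℕ => logHeight (z (m * j))) Filter.atTop Filter.atTop →
  ∀ k : ℕ, ∃ C : ℝ, ∃ᶠ i in Filter.atTop,
    logHeight (z (m * (i + k))) ≤ n * α ^ n * logHeight (z (m * i)) + C

/-- **S_densM.** Proof: suppose `f ∉ I`, take the polynomials `A` of S_normA for all `a` and let `α` be the maximum of the
degrees. The heights satisfy `u (m * (i + k)) ≥ ρ ^ (m * k) * u (m * i)` for large `i` and tend to infinity; choose `k` with
`ρ ^ (m * k) > n * α ^ n` and compare with S_cmpM. -/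
def S_densM : Prop := ∀ (K : Type) [Field K] [NumberField K] (n : ℕ) (I : Ideal (MvPolynomial (Fin n) K)), I.IsPrime →
  Homog I → Algebra.trdeg K (MvPolynomial (Fin n) K ⧸ I) = 3 → ∀ (φ ψ : Mor I), LeftInv ψ φ →
  ∀ z : ℕ → Fin n → K, Orb φ (RingHom.id K) z → ∀ ρ : ℝ, 1 < ρ →
  (∃ k₀, ∀ k, k₀ ≤ k → ρ * logHeight (z k) ≤ logHeight (z (k + 1)) ∧ 1 ≤ logHeight (z k)) → ∀ m : ℕ, 0 < m →
  ∀ f : MvPolynomial (Fin n) K, (∀ (j : ℕ) (s : K), eval (s • z (m * j)) f = 0) → f ∈ I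

/-! ### Part 2: determinantal quartic surfaces -/

/-- **S_adj.** Linear algebra. Proof: since a 3 x 3 minor is not zero, a vector of the left kernel with one certain zero
coordinate is zero, so the left kernel is one-dimensional (at most), the same for the right kernel; `M * adj M = 0` and
`adj M * M = 0`, so the columns of `adj M` are multiples of `v` and the rows multiples of `u`. -/
def S_adj : Prop := ∀ (F : Type) [Field F] (M : Matrix (Fin 4) (Fin 4) F), M.det = 0 → M.adjugate ≠ 0 →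
  (∃ u, u ≠ 0 ∧ Matrix.vecMul u M = 0) ∧ (∃ v, v ≠ 0 ∧ M.mulVec v = 0) ∧
  ∀ u v : Fin 4 → F, u ≠ 0 → v ≠ 0 → Matrix.vecMul u M = 0 → M.mulVec v = 0 →
    ∃ c : F, c ≠ 0 ∧ ∀ a b, M.adjugate a b = c * v a * u b

/-- **S_dN.** Nullstellensatz with coefficients in `K`. Analogue: S_null of WK. -/
def S_dN : Prop := ∀ (K : Type) [Field K] (A : Ten K), (A.map (algebraMap K (AlgebraicClosure K))).Rk →
  ∃ (M : ℕ) (q : Fin 4 × (Fin 4 × Fin 4) → MvPolynomial (Fin 4) K), (∀ a, (q a).IsHomogeneous M) ∧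
    ∀ k : Fin 4, ∑ j : Fin 4 × Fin 4, q (k, j) * A.matP.adjugate j.1 j.2 = X k ^ (M + 3)

/-- **S_dH.** Heights. Proof: `A.rot.rot.Nxt v w` means `A.mat w * v = 0`, `A.Nxt w u` means `u * A.mat w = 0`. So
`v a * u b = c * adj (A.mat w) a b` (S_adj), `h v + h u` is the height of the tuple `v a * u b` (`Height.logHeight_fun_mul_eq`),
scalars do not matter, and `3 h w - C ≤` height of the tuple `adj (A.mat w) a b` by `Height.logHeight_eval_ge'` and S_dN.
Analogue: S_h of WK. -/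
def S_dH : Prop := ∀ (K : Type) [Field K] [NumberField K] (A : Ten K),
  (A.map (algebraMap K (AlgebraicClosure K))).Rk →
  ∃ c : ℝ, ∀ v w u : Fin 4 → K, A.rot.rot.Nxt v w → A.Nxt w u → 3 * logHeight w ≤ logHeight v + logHeight u + c

/-- **S_dC.** Chains over a field. Proof: `A.Nxt w v` means `v * A.mat w = 0`, and `A.rot.rot.Nxt v w` means
`A.mat w * v = 0`; use S_adj. If `A.Nxt w v` then `A.rot.mat v * w = 0`, so its determinant is zero; if `A.rot.rot.Nxt v w` then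
`w * A.rot.rot.mat v = 0` (definition). -/
def S_dC : Prop := ∀ (F : Type) [Field F] (A : Ten F), A.Rk → ∀ w : Fin 4 → F, w ≠ 0 → (A.mat w).det = 0 →
  (∃ v, A.Nxt w v) ∧ (∃ v, A.rot.rot.Nxt v w) ∧
  (∀ v, A.Nxt w v → (A.rot.mat v).det = 0 ∧ ∀ v', A.Nxt w v' → ∃ s : F, s ≠ 0 ∧ v' = s • v) ∧
  (∀ v, A.rot.rot.Nxt v w → (A.rot.rot.mat v).det = 0 ∧
    ∀ v', A.rot.rot.Nxt v' w → ∃ s : F, s ≠ 0 ∧ v' = s • v) ∧
  (∀ v, A.Nxt w v → (∀ a, ∃ t : F, ∀ b, (A.mat w).adjugate a b = t * v b) ∧ ∃ a b, (A.mat w).adjugate a b ≠ 0) ∧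
  ∀ v, A.rot.rot.Nxt v w → (∀ b, ∃ t : F, ∀ a, (A.mat w).adjugate a b = t * v a)

/-- **S_mk.** Morphisms from conditions on the points over the algebraic closure (Nullstellensatz:
`MvPolynomial.vanishingIdeal_zeroLocus_eq_radical` for `K` and its algebraic closure, `I` prime; all polynomials in
question vanish at `0` too, since the degrees are positive, and the elements of `I` vanish at `0`, since `I` is
homogeneous and proper). -/
def S_mk : Prop := ∀ (K : Type) [Field K] (n : ℕ) (I : Ideal (MvPolynomial (Fin n) K)), I.IsPrime → Homog I →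
  ∀ (p : ℕ) (d : Fin p → ℕ) (F : Fin p → Fin n → MvPolynomial (Fin n) K), (∀ l, 0 < d l) →
  (∀ l a, (F l a).IsHomogeneous (d l)) →
  (∀ x, Pt (algebraMap K (AlgebraicClosure K)) I x →
    ∃ y, Pt (algebraMap K (AlgebraicClosure K)) I y ∧
      (∀ l, ∃ t, ∀ a, eval₂ (algebraMap K (AlgebraicClosure K)) x (F l a) = t * y a) ∧
      ∃ l a, eval₂ (algebraMap K (AlgebraicClosure K)) x (F l a) ≠ 0) →
  (∀ k : Fin n, X k ∈ (I ⊔ Ideal.span {g | ∃ l a, g = F l a}).radical) ∧
  (∀ l l' a b, F l a * F l' b - F l b * F l' a ∈ I) ∧ ∀ l, ∀ f ∈ I, bind₁ (F l) f ∈ I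

/-- **S_inv.** `LeftInv` from the points over the algebraic closure (Nullstellensatz, `I` prime). At a point `x` with
`F l (x) ≠ 0` the vector `y = F l (x)` is in relation to `x`, so by hypothesis `x = c G l'' (y)`, and `G l' (y)` is a multiple of
`x` by `agree` for `ψ` (`y` is a point of `V(I)` by `into`); `bind₁ (F l) g` at `x` is `g` at `F l (x)`. -/
def S_inv : Prop := ∀ (K : Type) [Field K] (n : ℕ) (I : Ideal (MvPolynomial (Fin n) K)), I.IsPrime → Homog I →
  ∀ φ ψ : Mor I, (∀ x y, Pt (algebraMap K (AlgebraicClosure K)) I x →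
    φ.Rel (algebraMap K (AlgebraicClosure K)) x y → ψ.Rel (algebraMap K (AlgebraicClosure K)) y x) → LeftInv ψ φ

/-- **S_dF.** Three steps forward. Proof: by S_dC all rows of `adj (mat x)` are multiples of `u`, some row is not zero; the
values of `A.rot.row` at `t • u` are `t ^ 3` times those at `u`, multiples of `v`, and so on; `fwd l` at `x` is `A.rot.rot.row l.2.2`
at (`A.rot.row l.2.1` at (`A.row l.1` at `x`)). -/
def S_dF : Prop := ∀ (K F : Type) [Field K] [Field F] (σ : K →+* F) (A : Ten K), (A.map σ).Rk → (A.map σ).rot.Rk →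
  (A.map σ).rot.rot.Rk → ∀ x u v y, (A.map σ).Nxt x u → (A.map σ).rot.Nxt u v → (A.map σ).rot.rot.Nxt v y →
  (∀ l, ∃ t, ∀ b, eval₂ σ x (A.fwd l b) = t * y b) ∧ ∃ l b, eval₂ σ x (A.fwd l b) ≠ 0

/-- **S_dB.** Three steps back, in the same way with the columns. -/
def S_dB : Prop := ∀ (K F : Type) [Field K] [Field F] (σ : K →+* F) (A : Ten K), (A.map σ).Rk → (A.map σ).rot.Rk →
  (A.map σ).rot.rot.Rk → ∀ x u v y, (A.map σ).rot.rot.Nxt u x → (A.map σ).rot.Nxt v u → (A.map σ).Nxt y v →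
  (∀ l, ∃ t, ∀ a, eval₂ σ x (A.bwd l a) = t * y a) ∧ ∃ l a, eval₂ σ x (A.bwd l a) ≠ 0

/-- **S_dh.** The degrees. -/
def S_dh : Prop := ∀ (K : Type) [Field K] (A : Ten K), A.matP.det.IsHomogeneous 4 ∧ Homog (Ideal.span {A.matP.det}) ∧
  ∀ l a, (A.fwd l a).IsHomogeneous 27 ∧ (A.bwd l a).IsHomogeneous 27

/-- **S_dM.** The automorphism of Cayley and Oguiso. Proof: the forms are `fwd`, `bwd`, with index set
`Fin 64 ≃ Fin 4 × Fin 4 × Fin 4`. Points of `V(I)` are the vectors `x ≠ 0` with `det (mat x) = 0`. By S_dC there are chains in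
both directions, so S_mk (with S_dF, S_dB, S_dh) gives `φ` and `ψ`, and S_inv gives the inverses: if `x, u, v, y` is a
chain then `fwd` sends `x` to a multiple of `y`, and `bwd` sends `y` to a multiple of `x`. (`A.rot.rot.rot = A`,
`(A.map σ).rot = A.rot.map σ` by `rfl`; rank conditions over the algebraic closure imply those over `K`.) -/
def S_dM : Prop := ∀ (K : Type) [Field K] (A : Ten K), (A.map (algebraMap K (AlgebraicClosure K))).Rk →
  (A.rot.map (algebraMap K (AlgebraicClosure K))).Rk → (A.rot.rot.map (algebraMap K (AlgebraicClosure K))).Rk →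
  (Ideal.span {A.matP.det}).IsPrime → ∃ φ ψ : Mor (Ideal.span {A.matP.det}), LeftInv ψ φ ∧ LeftInv φ ψ ∧
    (∀ x y : Fin 4 → K, Pt (RingHom.id K) (Ideal.span {A.matP.det}) x → φ.Rel (RingHom.id K) x y →
      ∃ u v, A.Nxt x u ∧ A.rot.Nxt u v ∧ A.rot.rot.Nxt v y) ∧
    ∀ x y : Fin 4 → K, Pt (RingHom.id K) (Ideal.span {A.matP.det}) x → ψ.Rel (RingHom.id K) x y →
      ∃ u v, A.rot.rot.Nxt u x ∧ A.rot.Nxt v u ∧ A.Nxt y v

/-- **S_tr.** The transcendence degree of a hypersurface: the classes of the three variables different from one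
which occurs in `g` are a transcendence basis. -/
def S_tr : Prop := ∀ (K : Type) [Field K] (g : MvPolynomial (Fin 4) K), Irreducible g →
  Algebra.trdeg K (MvPolynomial (Fin 4) K ⧸ Ideal.span {g}) = 3

end Pool.Agent.Q44.SA
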