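import Pool.Agent.Q44.SA.Stm
import Pool.Agent.Q44.WK.Loc
import Pool.Agent.Q44.SA.Rec

/-!
# Project SA: assembly of the criterion
-/

set_option autoImplicit false

namespace Pool.Agent.Q44.SA

open MvPolynomial Height

/-- the criterion, first form -/
def S_topM : Prop := ∀ (K : Type) [Field K] [NumberField K] (n : ℕ) (I : Ideal (MvPolynomial (Fin n) K)), I.IsPrime →
  Homog I → Algebra.trdeg K (MvPolynomial (Fin n) K ⧸ I) = 3 → ∀ (φ ψ : Mor I), LeftInv ψ φ →
  ∀ T : Set (MvPolynomial (Fin n) K),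
  (∀ x y, Pt (RingHom.id K) I x → (∀ g ∈ T, eval x g = 0) → ψ.Rel (RingHom.id K) x y → ∀ g ∈ T, eval y g = 0) →
  ∀ κ c : ℝ, 2 < κ → (∀ x y y', Pt (RingHom.id K) I x → (¬ ∀ g ∈ T, eval x g = 0) → φ.Rel (RingHom.id K) x y →
    ψ.Rel (RingHom.id K) x y' → κ * logHeight x ≤ logHeight y + logHeight y' + c) →
  ∃ (E : Finset (Fin n → K)) (N : ℕ), N ≠ 0 ∧ ∀ (ι : Type) [Fintype ι] (L : ι → Type)
    [∀ i, NontriviallyNormedField (L i)] [∀ i, IsUltrametricDist (L i)] [∀ i, ProperSpace (L i)]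
    (σ : ∀ i, K →+* L i), (∀ i, ‖(N : L i)‖ = 1) → ∀ x : Fin n → K, Pt (RingHom.id K) I x →
    (¬ ∀ g ∈ T, eval x g = 0) → (∀ e ∈ E, ¬ ∃ s : K, s ≠ 0 ∧ x = s • e) →
    ∀ ε : ℝ, 0 < ε → ∀ f : MvPolynomial (Fin n) K,
      (∀ y : Fin n → K, Pt (RingHom.id K) I y → (∀ i, ∃ c : L i, c ≠ 0 ∧ ‖c • (σ i ∘ y) - σ i ∘ x‖ ≤ ε) →
        ∀ t : K, eval (t • y) f = 0) → f ∈ I

theorem norm_one_of_mul {L : Type} [NontriviallyNormedField L] [IsUltrametricDist L] {a b : ℕ}
    (h : ‖((a * b : ℕ) : L)‖ = 1) : ‖(a : L)‖ = 1 ∧ ‖(b : L)‖ = 1 := by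
  have h1 : ‖(a : L)‖ ≤ 1 := IsUltrametricDist.norm_natCast_le_one L a
  have h2 : ‖(b : L)‖ ≤ 1 := IsUltrametricDist.norm_natCast_le_one L b
  rw [Nat.cast_mul, norm_mul] at h
  constructor
  · by_contra hc
    have : ‖(a : L)‖ < 1 := lt_of_le_of_ne h1 hc
    have := mul_le_mul_of_nonneg_left h2 (norm_nonneg (a : L))
    linarith
  · by_contra hc
    have : ‖(b : L)‖ < 1 := lt_of_le_of_ne h2 hc
    have := mul_le_mul_of_nonneg_right h1 (norm_nonneg (b : L))
    linarith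

/-- orbits exist -/
theorem exists_orbit {K : Type} [Field K] {n : ℕ} {I : Ideal (MvPolynomial (Fin n) K)} (hom : Homog I) (φ ψ : Mor I)
    (h : LeftInv ψ φ) {F : Type} [Field F] (σ : K →+* F) {x : Fin n → F} (hx : Pt σ I x) :
    ∃ z, z 0 = x ∧ Orb φ σ z := by
  have key : ∀ y : {y : Fin n → F // Pt σ I y}, ∃ y' : {y : Fin n → F // Pt σ I y}, φ.Rel σ y.1 y'.1 := by
    intro y
    obtain ⟨⟨y', h1⟩, h2⟩ := Pool.Agent.Q190.SA.relH K F σ n I hom φ ψ h y.1 y.2
    exact ⟨⟨y', (h2 y' h1).1⟩, h1⟩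
  choose g hg using key
  refine ⟨fun k => ((g^[k]) ⟨x, hx⟩).1, rfl, fun k => ((g^[k]) ⟨x, hx⟩).2, fun k => ?_⟩
  change φ.Rel σ ((g^[k]) ⟨x, hx⟩).1 ((g^[k + 1]) ⟨x, hx⟩).1
  rw [Function.iterate_succ_apply']
  exact hg _

theorem topM (hgood : S_goodM) (hrec : S_recH) (hnc : S_ncM) (hunb : S_unbM) (hgrow : S_growM)
    (hdens : S_densM) : S_topM := by
  intro K _ _ n I hI hom htr φ ψ hinv T hT κ c hκ hH
  obtain ⟨N₁, hN₁, hg₁⟩ := hgood K n I φ
  obtain ⟨N₂, hN₂, hg₂⟩ := hgood K n I ψ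
  obtain ⟨E, hE⟩ := hnc K n (c / (κ - 2))
  refine ⟨E, N₁ * N₂, mul_ne_zero hN₁ hN₂, ?_⟩
  intro ι _ L _ _ _ σ hσ x hx hxT hxE ε hε f hf
  obtain ⟨z, z0, hz⟩ := exists_orbit hom φ ψ hinv (RingHom.id K) hx
  have hzT : ∀ k, ¬ ∀ g ∈ T, eval (z k) g = 0 := by
    intro k
    induction k with
    | zero => rw [z0]; exact hxT
    | succ k ih =>
      intro h
      refine ih (hT (z (k + 1)) (z k) (hz.1 _) h ?_)
      exact ((Pool.Agent.Q190.SA.relH K K (RingHom.id K) n I hom φ ψ hinv (z k) (hz.1 k)).2 _ (hz.2 k)).2.1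
  have hu : ∀ k, κ * logHeight (z (k + 1)) ≤ logHeight (z k) + logHeight (z (k + 2)) + c := by
    intro k
    have h1 := hH (z (k + 1)) (z (k + 2)) (z k) (hz.1 _) (hzT _) (hz.2 _)
      ((Pool.Agent.Q190.SA.relH K K (RingHom.id K) n I hom φ ψ hinv (z k) (hz.1 k)).2 _ (hz.2 k)).2.1
    linarith
  have h0 : c < (κ - 2) * logHeight (z 0) := by
    have hk : 0 < κ - 2 := by linarith
    by_contra hcon
    push Not at hcon
    have h1 : logHeight x ≤ c / (κ - 2) := by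
      rw [le_div_iff₀ hk, mul_comm, ← z0]
      exact hcon
    obtain ⟨s, hs, t, ht, e⟩ := hE x hx.1 h1
    exact hxE s hs ⟨t, ht, e⟩
  have hun := hunb K n I φ ψ hinv κ c hκ z hz hu h0
  obtain ⟨ρ, hρ, hgr⟩ := hgrow (fun k => logHeight (z k)) κ c hκ (fun k => logHeight_nonneg _) hu hun
  obtain ⟨m, hm, hr⟩ := hrec K ι L σ n I hom φ ψ hinv (fun i => hg₁ (L i) (σ i) (norm_one_of_mul (hσ i)).1)
    (fun i => hg₂ (L i) (σ i) (norm_one_of_mul (hσ i)).2) z hz ε hε
  refine hdens K n I hI hom htr φ ψ hinv z hz ρ hρ hgr m hm f ?_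
  intro j s
  refine hf (z (m * j)) (hz.1 _) ?_ s
  intro i
  have := hr j i
  rw [z0] at this
  exact this

/-! ### The final form -/

/-- The ideal of the local Zariski closure at the point `x`, over a field `L` containing `K`, of the set of the
`K`-points of `V(I)`: the polynomials which vanish at (all multiples of) the `K`-points in a neighbourhood of `x`. -/
def closureIdeal {K L : Type} [Field K] [NontriviallyNormedField L] {n : ℕ} (σ : K →+* L)
    (I : Ideal (MvPolynomial (Fin n) K)) (x : Fin n → L) : Set (MvPolynomial (Fin n) K) :=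
  {f | ∃ U ∈ nhds x, ∀ y : Fin n → K, Pt (RingHom.id K) I y → (∃ c : L, c ≠ 0 ∧ c • (σ ∘ y) ∈ U) →
    ∀ t : K, eval (t • y) f = 0}

/-- two vectors are parallel -/
def Par {F : Type} [Field F] {n : ℕ} (v w : Fin n → F) : Prop := ∀ i j, v i * w j = v j * w i

theorem par_iff {F : Type} [Field F] {n : ℕ} {v w : Fin n → F} (hv : v ≠ 0) (hw : w ≠ 0) :
    Par v w ↔ ∃ s : F, s ≠ 0 ∧ v = s • w := by
  constructor
  · intro h
    obtain ⟨j, hj⟩ := Function.ne_iff.mp hw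
    simp only [Pi.zero_apply] at hj
    have e : v = (v j / w j) • w := by
      funext i
      simp only [Pi.smul_apply, smul_eq_mul]
      field_simp
      exact h i j
    refine ⟨v j / w j, ?_, e⟩
    intro h0
    rw [h0, zero_smul] at e
    exact hv e
  · rintro ⟨s, -, rfl⟩ i j
    simp only [Pi.smul_apply, smul_eq_mul]
    ring

theorem comp_ne {K L : Type} [Field K] [Field L] {n : ℕ} (σ : K →+* L) {x : Fin n → K} (hx : x ≠ 0) :
    (σ ∘ x : Fin n → L) ≠ 0 := by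
  intro h
  apply hx
  funext i
  have := congrFun h i
  simpa using this

theorem isOpen_not_par {L : Type} [NontriviallyNormedField L] {n : ℕ} (w : Fin n → L) :
    IsOpen {v : Fin n → L | ¬ Par v w} := by
  have : {v : Fin n → L | ¬ Par v w} = (⋂ i, ⋂ j, {v : Fin n → L | v i * w j = v j * w i})ᶜ := by
    ext v
    simp [Par]
  rw [this, isOpen_compl_iff]
  refine isClosed_iInter fun i => isClosed_iInter fun j => ?_
  exact isClosed_eq (by fun_prop) (by fun_prop)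

theorem sep {K L : Type} [Field K] [NontriviallyNormedField L] {n : ℕ} (σ : K →+* L) {x : Fin n → L} (hx : x ≠ 0)
    (E : Finset (Fin n → K)) (hE : ∀ e ∈ E, e ≠ 0) :
    ∃ U ∈ nhds x, ∀ e ∈ E, ∀ s : L, s ≠ 0 → s • (σ ∘ e) ∈ U → ∃ t : L, t ≠ 0 ∧ x = t • (σ ∘ e) := by
  classical
  induction E using Finset.induction_on with
  | empty => exact ⟨Set.univ, Filter.univ_mem, by simp⟩
  | insert e E _ ih =>
    obtain ⟨U, hU, h⟩ := ih fun e he => hE e (Finset.mem_insert_of_mem he)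
    have he := hE e (Finset.mem_insert_self _ _)
    by_cases h1 : Par x (σ ∘ e)
    · refine ⟨U, hU, ?_⟩
      intro e' he' s hs hsU
      rcases Finset.mem_insert.mp he' with rfl | he'
      · exact (par_iff hx (comp_ne σ he)).mp h1
      · exact h e' he' s hs hsU
    · refine ⟨U ∩ {v | ¬ Par v (σ ∘ e)}, Filter.inter_mem hU ((isOpen_not_par _).mem_nhds h1), ?_⟩
      intro e' he' s hs hsU
      rcases Finset.mem_insert.mp he' with rfl | he'
      · exact absurd ((par_iff (smul_ne_zero hs (comp_ne σ he)) (comp_ne σ he)).mpr ⟨s, hs, rfl⟩) hsU.2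
      · exact h e' he' s hs hsU.1

theorem same_of_same {K L : Type} [Field K] [Field L] {n : ℕ} (σ : K →+* L) {v w : Fin n → K} (hv : v ≠ 0)
    (hw : w ≠ 0) (h : ∃ s : L, s ≠ 0 ∧ (σ ∘ v : Fin n → L) = s • (σ ∘ w)) : ∃ s : K, s ≠ 0 ∧ v = s • w := by
  have h1 := (par_iff (comp_ne σ hv) (comp_ne σ hw)).mpr h
  refine (par_iff hv hw).mp fun i j => ?_
  have := h1 i j
  simp only [Function.comp_apply] at this
  rw [← map_mul, ← map_mul] at this
  exact σ.injective this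

theorem eval_smul_hom {F : Type} [CommRing F] {n : ℕ} {f : MvPolynomial (Fin n) F} {d : ℕ} (h : f.IsHomogeneous d)
    (t : F) (x : Fin n → F) : eval (t • x) f = t ^ d * eval x f := by
  rw [eval_eq', eval_eq', Finset.mul_sum]
  refine Finset.sum_congr rfl fun m hm => ?_
  have h1 := h (mem_support_iff.mp hm)
  have h2 : ∑ i, m i = d := by
    rw [← h1, Finsupp.weight_apply, Finsupp.sum_fintype _ _ (by simp)]
    simp
  have e : ∏ i, (t • x) i ^ m i = t ^ d * ∏ i, x i ^ m i := by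
    simp only [Pi.smul_apply, smul_eq_mul, mul_pow, Finset.prod_mul_distrib, Finset.prod_pow_eq_pow_sum, h2]
  rw [e]
  ring

/-- a multiple of a point is a point -/
theorem pt_smul {K : Type} [Field K] {n : ℕ} {I : Ideal (MvPolynomial (Fin n) K)} (hom : Homog I) {x : Fin n → K}
    (hx : Pt (RingHom.id K) I x) {f : MvPolynomial (Fin n) K} (hf : f ∈ I) (t : K) : eval (t • x) f = 0 := by
  have h1 : f = ∑ d ∈ Finset.range (f.totalDegree + 1), homogeneousComponent d f := (sum_homogeneousComponent f).symm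
  rw [h1, map_sum]
  refine Finset.sum_eq_zero fun d _ => ?_
  have h3 := hx.2 _ (hom f hf d)
  rw [eval₂_id] at h3
  rw [eval_smul_hom (homogeneousComponent_isHomogeneous d f), h3, mul_zero]

end Pool.Agent.Q44.SA
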